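import Mathlib

set_option autoImplicit false
open Matrix

namespace Pool.Agent.Results.MP_b60f31_al.Bound

/-- the equations: inl i is x_i = 1 and inr (i, j, k) is x_i + x_j = x_k -/
abbrev Eqn (n : ℕ) : Type := Fin n ⊕ Fin n × Fin n × Fin n

/-- the row of A -/
def row (K : Type) [Ring K] {n : ℕ} : Eqn n → Fin n → K
  | .inl i => Pi.single i 1
  | .inr (i, j, k) => Pi.single i 1 + Pi.single j 1 - Pi.single k 1

/-- the entry of b -/
def rhs (K : Type) [Ring K] {n : ℕ} : Eqn n → K
  | .inl _ => 1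
  | .inr _ => 0

lemma vertex {K V ι : Type} [Field K] [LinearOrder K] [IsStrictOrderedRing K] [AddCommGroup V]
    [Module K V] [Fintype ι] (g : ι → V →ₗ[K] K) (β : ι → K) (φ : V →ₗ[K] K) (x₀ : V)
    (h₀ : ∀ c, β c ≤ g c x₀) (hr : ∀ d, (∀ c, 0 ≤ g c d) → d = 0) :
    ∃ x, φ x₀ ≤ φ x ∧ ∀ d, (∀ c, g c x = β c → g c d = 0) → d = 0 := by
  classical
  obtain ⟨⟨x, h1, h2⟩, hm⟩ := exists_minimalFor_of_wellFoundedLT (fun _ => True)
    (fun x : {x // φ x₀ ≤ φ x ∧ ∀ c, β c ≤ g c x} =>
      (Finset.univ.filter fun c => g c x.1 ≠ β c)) ⟨⟨x₀, le_rfl, h₀⟩, trivial⟩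
  refine ⟨x, h1, fun d hd => ?_⟩
  wlog h : 0 ≤ φ d generalizing d
  · exact neg_eq_zero.1 (this (-d) (fun c h => by simp [hd c h]) (by simpa using (not_le.1 h).le))
  by_contra hd0
  obtain ⟨c₀, hc₀, hc⟩ := (Finset.univ.filter fun c => g c d < 0).exists_min_image
    (fun c => (g c x - β c) / -g c d) (by
      by_contra h'
      exact hd0 (hr d fun c => not_lt.1 fun h => h' ⟨c, by simpa⟩))
  simp only [Finset.mem_filter, Finset.mem_univ, true_and] at hc₀ hc
  have ht : 0 ≤ (g c₀ x - β c₀) / -g c₀ d := div_nonneg (sub_nonneg.2 (h2 _)) (by linarith)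
  have := hm.2 (j := ⟨x + ((g c₀ x - β c₀) / -g c₀ d) • d, by
    rw [map_add, map_smul]; exact h1.trans (le_add_of_nonneg_right (mul_nonneg ht h)), fun c => by
    rw [map_add, map_smul, smul_eq_mul]
    rcases lt_or_ge (g c d) 0 with h | h
    · have := (le_div_iff₀ (neg_pos.2 h)).1 (hc c h)
      linarith
    · exact (h2 c).trans (le_add_of_nonneg_right (mul_nonneg ht h))⟩) trivial (fun c => by
    simp only [Finset.mem_filter, Finset.mem_univ, true_and]
    exact mt fun h => by simp [hd c h, h])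
  have := @this c₀
  simp only [Finset.mem_filter, Finset.mem_univ, true_and] at this
  refine this (fun h => hc₀.ne (hd _ h)) ?_
  rw [map_add, map_smul, smul_eq_mul]
  field_simp [hc₀.ne]
  ring

def nd {n : ℕ} : Option (Fin n) → Fin n → ℤ
  | none => 0
  | some i => Pi.single i 1

lemma net {n : ℕ} (a c : Fin n → Option (Fin n)) : |det (of fun r => nd (a r) - nd (c r))| ≤ 1 := by
  by_contra h
  obtain ⟨p, hp, hd⟩ := Nat.exists_prime_and_dvd
    (n := (det (of fun r => nd (a r) - nd (c r))).natAbs) fun h' => h (by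
      rw [Int.abs_eq_natAbs, h']; rfl)
  have := Fact.mk hp
  obtain ⟨v, hv, e⟩ := exists_mulVec_eq_zero_iff.2 (show
      ((of fun r => nd (a r) - nd (c r)).map (Int.castRingHom (ZMod p))).det = 0 by
    rw [← RingHom.mapMatrix_apply, ← RingHom.map_det]
    exact (ZMod.intCast_zmod_eq_zero_iff_dvd _ _).2 (Int.natCast_dvd.2 hd))
  refine h ?_
  rw [exists_mulVec_eq_zero_iff.1 ⟨fun i => ((v i).val : ℤ), fun h => hv (funext fun i => by
    simpa [-ZMod.natCast_val] using congrFun h i), funext fun r => ?_⟩]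
  · simp
  have := congrFun e r
  cases ha : a r <;> cases hc : c r <;>
    simp_all [mulVec, dotProduct, nd, Pi.single_apply, sub_mul, sub_eq_zero]

lemma cram {n : ℕ} (E : Fin n → Eqn n) (j : Fin n) :
    |det ((of fun r => row ℤ (E r)).updateCol j fun r => -rhs ℤ (E r))| ≤ 2 ^ (n - 1) := by
  by_cases h : ∃ r, (E r).isLeft
  swap
  · rw [det_eq_zero_of_column_eq_zero j fun r => ?_]
    · simp
    · cases hr : E r
      · exact absurd ⟨r, by simp [hr]⟩ h
      · simp [hr, rhs]
  obtain ⟨r₀, h⟩ := h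
  let η : Fin n → Option (Fin n) := fun i => if i = j then none else some i
  let a : Fin n → Bool → Option (Fin n) := fun r t => match E r with
    | .inl i => η i
    | .inr (i, k, _) => if t then η i else η k
  let c : Fin n → Bool → Option (Fin n) := fun r t => match E r with
    | .inl _ => some j
    | .inr (_, _, k) => if t then η k else none
  let s : Fin n → Finset Bool := fun r => if (E r).isLeft then {true} else Finset.univ
  have e : ((of fun r => row ℤ (E r)).updateCol j fun r => -rhs ℤ (E r)) =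
      fun r => ∑ t ∈ s r, (nd (a r t) - nd (c r t)) := by
    have hη : ∀ i l, nd (η i) l = if l = j then 0 else Pi.single (M := fun _ => ℤ) i 1 l := by
      intro i l
      by_cases h1 : i = j <;> by_cases h2 : l = j <;> simp [η, nd, h1, h2]
    ext r l
    rcases hr : E r with i | ⟨i, k, m⟩ <;> by_cases h2 : l = j <;>
      simp [s, a, c, hr, row, rhs, hη, h2, nd.eq_1, nd.eq_2]
  rw [e]
  refine (congrArg abs (detRowAlternating.toMultilinearMap.map_sum_finset
    (fun r t => nd (a r t) - nd (c r t)) s)).trans_le ((Finset.abs_sum_le_sum_abs _ _).trans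
      ((Finset.sum_le_card_nsmul _ _ 1 fun f _ => net _ _).trans ?_))
  rw [Fintype.card_piFinset, ← Finset.mul_prod_erase _ _ (Finset.mem_univ r₀)]
  have := Finset.prod_le_pow_card (Finset.univ.erase r₀) (fun r => (s r).card) 2
    fun r _ => Finset.card_le_univ _
  simpa [s, h] using (Nat.cast_le (α := ℤ)).2 this

lemma uniq {K ι : Type} [Field K] [LinearOrder K] [IsStrictOrderedRing K] {n : ℕ}
    (E : ι → Eqn n) (x : Fin n → K) (hx : ∀ c, row K (E c) ⬝ᵥ x = rhs K (E c))
    (hd : ∀ d, (∀ c, row K (E c) ⬝ᵥ d = 0) → d = 0) (j : Fin n) : |x j| ≤ 2 ^ (n - 1) := by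
  obtain ⟨κ, a, -, h1, h2⟩ := exists_linearIndependent' K fun c => row K (E c)
  have h3 : Submodule.span K (Set.range fun c => row K (E c)) = ⊤ := by
    by_contra h
    obtain ⟨f, hf, h'⟩ := Submodule.exists_le_ker_of_lt_top _ (lt_top_iff_ne_top.2 h)
    have e : ∀ y, f y = y ⬝ᵥ fun i => f (Pi.single i 1) := fun y => by
      rw [LinearMap.pi_apply_eq_sum_univ]
      simp [dotProduct, ← Pi.single_apply, Pi.single_comm]
    have := hd _ fun c => (e _).symm.trans (h' (Submodule.subset_span ⟨c, rfl⟩))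
    exact hf (LinearMap.ext fun y => by simp [e y, this])
  let B := Module.Basis.mk h2 (h1.trans h3).ge
  let e := (Pi.basisFun K (Fin n)).indexEquiv B
  let M : Matrix (Fin n) (Fin n) ℤ := of fun r => row ℤ (E (a (e r)))
  have hc : ∀ q : Eqn n, (fun l => ((row ℤ q l : ℤ) : K)) = row K q := by
    rintro (i | ⟨i, k, m⟩) <;> ext l <;> simp [row, Pi.single_apply]
  have hM : M.map (Int.castRingHom K) = of fun r => row K (E (a (e r))) := by
    ext r l; exact congrFun (hc _) l
  have h4 : (M.det : K) ≠ 0 := by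
    rw [← eq_intCast (Int.castRingHom K), RingHom.map_det, RingHom.mapMatrix_apply, hM]
    exact ((isUnit_iff_isUnit_det _).1 (linearIndependent_rows_iff_isUnit.1
      (h2.comp e e.injective))).ne_zero
  have h5 : ((M.updateCol j fun r => -rhs ℤ (E (a (e r)))).det : K) = M.det * -x j := by
    rw [← eq_intCast (Int.castRingHom K), ← eq_intCast (Int.castRingHom K), RingHom.map_det,
      RingHom.map_det, RingHom.mapMatrix_apply, RingHom.mapMatrix_apply, map_updateCol,
      ← cramer_apply, show _ ∘ _ = M.map (Int.castRingHom K) *ᵥ (-x) from funext fun r => ?_,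
      cramer_eq_adjugate_mulVec, mulVec_mulVec, adjugate_mul]
    · simp [smul_mulVec]
    · rw [hM, mulVec_neg]
      refine Eq.trans ?_ (congrArg Neg.neg (hx (a (e r))).symm)
      cases h : E (a (e r)) <;> simp [rhs, h]
  have h6 := (Int.cast_le (R := K)).2 (cram (fun r => E (a (e r))) j)
  have h7 := (Int.cast_le (R := K)).2 (Int.one_le_abs (z := M.det) fun h => h4 (by simp [h]))
  rw [Int.cast_abs, Int.cast_one] at h7
  rw [Int.cast_abs, h5, abs_mul, abs_neg, Int.cast_pow, Int.cast_ofNat] at h6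
  nlinarith [abs_nonneg (x j)]

lemma gen {K ι : Type} [Field K] [LinearOrder K] [IsStrictOrderedRing K] {n : ℕ} [Fintype ι]
    (E : ι → Eqn n) (x : Fin n → K) (hr : ∀ d, (∀ c, 0 ≤ (row K (E c) ⬝ᵥ x - rhs K (E c)) *
      (row K (E c) ⬝ᵥ d)) → (∀ c, row K (E c) ⬝ᵥ x = rhs K (E c) → row K (E c) ⬝ᵥ d = 0) → d = 0)
    (j : Fin n) : |x j| ≤ 2 ^ (n - 1) := by
  let ρ : ι → K := fun c => row K (E c) ⬝ᵥ x - rhs K (E c)
  let σ : ι × Bool → K := fun c => if ρ c.1 < 0 ∨ ρ c.1 = 0 ∧ c.2 then -1 else 1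
  have hσ : ∀ c, σ c ≠ 0 := fun c => by simp only [σ]; split_ifs <;> simp
  have key : ∀ φ : (Fin n → K) →ₗ[K] K, ∃ y, φ x ≤ φ y ∧ |y j| ≤ 2 ^ (n - 1) := fun φ => by
    obtain ⟨y, h1, h2⟩ := vertex (fun c => σ c • dotProductBilin K K (row K (E c.1)))
      (fun c => σ c * rhs K (E c.1)) φ x (fun c => by
        simp only [σ, ρ]; split_ifs with h
        · rcases h with h | h <;> simp <;> linarith [h]
        · simp at h ⊢; linarith [h.1]) (fun d h => hr d (fun c => by
        have := h (c, false)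
        rcases lt_or_ge (ρ c) 0 with h' | h'
        · exact mul_nonneg_of_nonpos_of_nonpos h'.le (by simpa [σ, h'] using this)
        · exact mul_nonneg h' (by simpa [σ, h'.not_gt] using this)) fun c hc => by
        have h0 : ρ c = 0 := sub_eq_zero.2 hc
        exact le_antisymm (by simpa [σ, h0] using h (c, true)) (by simpa [σ, h0] using h (c, false)))
    refine ⟨y, h1, uniq (ι := {c // row K (E c) ⬝ᵥ y = rhs K (E c)}) (fun c => E c.1) y
      (fun c => c.2) (fun d hd => h2 d fun c hc => ?_) j⟩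
    simpa [hσ] using hd ⟨c.1, by simpa [hσ] using hc⟩
  obtain ⟨y, h1, h2⟩ := key (.proj j)
  obtain ⟨z, h3, h4⟩ := key (-.proj j)
  simp only [LinearMap.neg_apply, LinearMap.proj_apply, abs_le] at *
  exact ⟨by linarith, by linarith⟩

theorem result (K : Type) [Field K] [LinearOrder K] [IsStrictOrderedRing K]
    (n : ℕ) (_ : 1 ≤ n) (S : Finset (Eqn n)) (A : Matrix S (Fin n) K) (b : S → K)
    (hA : ∀ s, A s = row K s.1) (hb : ∀ s, b s = rhs K s.1) (P : Matrix (Fin n) S K)
    (h1 : A * P * A = A) (h2 : P * A * P = P) (h3 : (A * P)ᵀ = A * P) (h4 : (P * A)ᵀ = P * A)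
    (j : Fin n) : |(P *ᵥ b) j| ≤ 2 ^ (n - 1) := by
  refine gen (ι := S ⊕ Fin n) (Sum.elim (·.1) fun i => .inr (i, i, i)) _ (fun d ha hb' => ?_) j
  have e1 : (A *ᵥ (P *ᵥ b) - b) ⬝ᵥ (A *ᵥ d) = 0 := by
    rw [mulVec_mulVec, sub_dotProduct, ← h3, mulVec_transpose, ← dotProduct_mulVec, mulVec_mulVec,
      h1, sub_self]
  have e2 : A *ᵥ d = 0 := funext fun s => by
    rcases mul_eq_zero.1 ((Finset.sum_eq_zero_iff_of_nonneg fun s _ => by
      simpa only [Sum.elim_inl, ← hA, ← hb] using! ha (.inl s)).1 e1 s (Finset.mem_univ _))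
      with h | h
    · simpa only [Sum.elim_inl, ← hA] using! hb' (.inl s) (by
        simpa only [Sum.elim_inl, ← hA, ← hb] using! sub_eq_zero.1 h)
    · exact h
  have e3 : (P *ᵥ b) ⬝ᵥ d = 0 := by
    rw [← h2, ← mulVec_mulVec, ← h4, mulVec_transpose, ← dotProduct_mulVec, ← mulVec_mulVec, e2]
    simp
  funext i
  rcases mul_eq_zero.1 ((Finset.sum_eq_zero_iff_of_nonneg fun i _ => by
    simpa [row, rhs] using ha (.inr i)).1 e3 i (Finset.mem_univ _)) with h | h
  · simpa [row] using hb' (.inr i) (by simpa [row, rhs] using h)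
  · exact h

end Pool.Agent.Results.MP_b60f31_al.Bound
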